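import Mathlib

/-!
# A strictly singular non-compact composition operator: sequence spaces
-/

set_option autoImplicit false

namespace Pool.Agent.Q202.SS

open Filter Topology
open scoped ENNReal InnerProductSpace

/-- `ℓ¹` -/
abbrev L1 : Type := lp (fun _ : ℕ => ℂ) 1

/-- `ℓ²` -/
abbrev L2 : Type := lp (fun _ : ℕ => ℂ) 2

lemma hasSum_one (a : L1) : HasSum (fun n => ‖a n‖) ‖a‖ := by
  have h := lp.hasSum_norm (p := 1) (by simp) a
  simpa using h

lemma hasSum_two (b : L2) : HasSum (fun n => ‖b n‖ ^ 2) (‖b‖ ^ 2) := by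
  have h := lp.hasSum_norm (p := 2) (by simp) b
  simpa using h

lemma apply_le_one (a : L1) (n : ℕ) : ‖a n‖ ≤ ‖a‖ :=
  le_hasSum (hasSum_one a) n (fun _ _ => norm_nonneg _)

lemma apply_le_two (b : L2) (n : ℕ) : ‖b n‖ ≤ ‖b‖ := by
  have h : ‖b n‖ ^ 2 ≤ ‖b‖ ^ 2 := le_hasSum (hasSum_two b) n (fun _ _ => by positivity)
  exact (sq_le_sq₀ (norm_nonneg _) (norm_nonneg _)).1 h

/-- a square summable sequence as an element of `ℓ²` -/
noncomputable def mk2 (c : ℕ → ℂ) (h : Summable fun n => ‖c n‖ ^ 2) : L2 :=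
  ⟨c, by
    refine (memℓp_gen_iff (by simp)).2 ?_
    simpa using h⟩

@[simp] lemma mk2_apply (c : ℕ → ℂ) (h : Summable fun n => ‖c n‖ ^ 2) (n : ℕ) :
    (mk2 c h : ℕ → ℂ) n = c n := rfl

lemma summable_sq (a : L1) : Summable fun n => ‖a n‖ ^ 2 := by
  refine Summable.of_nonneg_of_le (fun n => by positivity) (fun n => ?_)
    ((hasSum_one a).summable.mul_left ‖a‖)
  rw [sq]
  gcongr
  exact apply_le_one a n

/-- the inclusion of `ℓ¹` in `ℓ²` -/
noncomputable def inc (a : L1) : L2 := mk2 a (summable_sq a)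

@[simp] lemma inc_apply (a : L1) (n : ℕ) : inc a n = a n := rfl

lemma norm_inc_le (a : L1) : ‖inc a‖ ≤ ‖a‖ := by
  have h : ‖inc a‖ ^ 2 ≤ ‖a‖ ^ 2 := by
    have h1 := hasSum_two (inc a)
    have h2 : HasSum (fun n => ‖a‖ * ‖a n‖) (‖a‖ * ‖a‖) := (hasSum_one a).mul_left _
    rw [sq ‖a‖]
    refine hasSum_le (fun n => ?_) h1 h2
    rw [inc_apply, sq]
    gcongr
    exact apply_le_one a n
  exact (sq_le_sq₀ (norm_nonneg _) (norm_nonneg _)).1 h

/-- signs -/
lemma exists_signs {V : Type} [NormedAddCommGroup V] [InnerProductSpace ℂ V] (w : ℕ → V) (m : ℕ) :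
    ∃ ε : ℕ → ℂ, (∀ j, ‖ε j‖ = 1) ∧
      ∑ j ∈ Finset.range m, ‖w j‖ ^ 2 ≤ ‖∑ j ∈ Finset.range m, ε j • w j‖ ^ 2 := by
  induction m with
  | zero => exact ⟨fun _ => 1, fun _ => by simp, by simp⟩
  | succ m ih =>
    obtain ⟨ε, h1, h2⟩ := ih
    set s := ∑ j ∈ Finset.range m, ε j • w j with hs
    obtain ⟨δ, hδ, hδ2⟩ : ∃ δ : ℂ, ‖δ‖ = 1 ∧ 0 ≤ (⟪s, δ • w m⟫_ℂ).re := by
      by_cases h : 0 ≤ (⟪s, w m⟫_ℂ).re
      · exact ⟨1, by simp, by simpa using h⟩
      · refine ⟨-1, by simp, ?_⟩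
        rw [neg_smul, one_smul, inner_neg_right, Complex.neg_re]
        linarith
    refine ⟨fun j => if j = m then δ else ε j, fun j => ?_, ?_⟩
    · dsimp only
      split_ifs
      · exact hδ
      · exact h1 j
    · rw [Finset.sum_range_succ, Finset.sum_range_succ]
      have h3 : ∑ j ∈ Finset.range m, (if j = m then δ else ε j) • w j = s := by
        rw [hs]
        refine Finset.sum_congr rfl fun j hj => ?_
        rw [if_neg (Finset.mem_range.1 hj).ne]
      rw [h3]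
      have h3' : (fun j => if j = m then δ else ε j) m = δ := if_pos rfl
      rw [h3']
      have h4 := norm_add_sq (𝕜 := ℂ) s (δ • w m)
      rw [h4, norm_smul, hδ, one_mul]
      have h5 : RCLike.re ⟪s, δ • w m⟫_ℂ = (⟪s, δ • w m⟫_ℂ).re := rfl
      rw [h5]
      linarith

/-- **Key lemma.** On a subspace of `ℓ¹` of dimension `n` the norm of `ℓ²` is not `≥ C⁻¹` times the
norm of `ℓ¹` unless `n ≤ C²`. -/
lemma dim_le {n : ℕ} (x : Fin n → L1) (hx : Orthonormal ℂ (fun i => inc (x i))) {C : ℝ}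
    (hC : ∀ c : Fin n → ℂ, ‖∑ i, c i • x i‖ ≤ C * ‖∑ i, c i • inc (x i)‖) : (n : ℝ) ≤ C ^ 2 := by
  classical
  -- the vectors `P e_j`
  let w : ℕ → EuclideanSpace ℂ (Fin n) := fun j => WithLp.toLp 2 fun i => (starRingEnd ℂ) (x i j)
  have hw : ∀ j, ‖w j‖ ^ 2 = ∑ i, ‖x i j‖ ^ 2 := by
    intro j
    rw [EuclideanSpace.norm_sq_eq]
    refine Finset.sum_congr rfl fun i _ => ?_
    show ‖(starRingEnd ℂ) (x i j)‖ ^ 2 = _
    rw [RCLike.norm_conj]
  have key : ∀ m : ℕ, ∑ j ∈ Finset.range m, ∑ i, ‖x i j‖ ^ 2 ≤ C ^ 2 := by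
    intro m
    obtain ⟨ε, h1, h2⟩ := exists_signs w m
    simp only [hw] at h2
    refine h2.trans ?_
    set s := ∑ j ∈ Finset.range m, ε j • w j with hs
    -- the combination of the `x i` with coefficients `s i`
    have hsi : ∀ i, s i = ∑ j ∈ Finset.range m, ε j * (starRingEnd ℂ) (x i j) := by
      intro i
      rw [hs]
      simp [w, WithLp.ofLp_sum, Finset.sum_apply]
    set y : L1 := ∑ i, s i • x i with hy
    have hy2 : ‖∑ i, s i • inc (x i)‖ ^ 2 = ‖s‖ ^ 2 := by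
      rw [EuclideanSpace.norm_sq_eq]
      have h3 := hx.inner_sum (fun i => s i) (fun i => s i) Finset.univ
      rw [inner_self_eq_norm_sq_to_K] at h3
      have h3' : ((‖∑ i, s i • inc (x i)‖ : ℝ) : ℂ) ^ 2 = ∑ i, (starRingEnd ℂ) (s i) * s i := h3
      have h4 : ((‖∑ i, s i • inc (x i)‖ ^ 2 : ℝ) : ℂ) = ((∑ i, ‖s i‖ ^ 2 : ℝ) : ℂ) := by
        push_cast
        rw [h3']
        refine Finset.sum_congr rfl fun i _ => ?_
        rw [Complex.conj_mul']
      exact_mod_cast h4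
    have hyn : ‖y‖ ≤ C * ‖s‖ := by
      have h3 := hC (fun i => s i)
      have h4 : ‖∑ i, s i • inc (x i)‖ = ‖s‖ := by
        have := congrArg Real.sqrt hy2
        rwa [Real.sqrt_sq (norm_nonneg _), Real.sqrt_sq (norm_nonneg _)] at this
      rw [h4] at h3
      exact h3
    -- pairing with the signs
    have hpair : ‖s‖ ^ 2 ≤ ‖y‖ := by
      have hyj : ∀ j, y j = ∑ i, s i * x i j := by
        intro j
        rw [hy, lp.coeFn_sum, Finset.sum_apply]
        rfl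
      have h3 : ((‖s‖ ^ 2 : ℝ) : ℂ) = ∑ j ∈ Finset.range m, (starRingEnd ℂ) (ε j) * y j := by
        rw [EuclideanSpace.norm_sq_eq]
        push_cast
        have h4 : ∀ i, ((‖s i‖ : ℝ) : ℂ) ^ 2 =
            ∑ j ∈ Finset.range m, (starRingEnd ℂ) (ε j) * (s i * x i j) := by
          intro i
          rw [← Complex.conj_mul']
          conv_lhs => rw [hsi i]
          rw [map_sum, Finset.sum_mul]
          refine Finset.sum_congr rfl fun j _ => ?_
          rw [map_mul, RCLike.conj_conj, ← hsi i]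
          ring
        rw [Finset.sum_congr rfl fun i _ => h4 i, Finset.sum_comm]
        refine Finset.sum_congr rfl fun j _ => ?_
        rw [hyj, Finset.mul_sum]
      have h5 : ‖s‖ ^ 2 = ‖((‖s‖ ^ 2 : ℝ) : ℂ)‖ := by
        rw [Complex.norm_real, Real.norm_of_nonneg (by positivity)]
      rw [h5, h3]
      calc ‖∑ j ∈ Finset.range m, (starRingEnd ℂ) (ε j) * y j‖
          ≤ ∑ j ∈ Finset.range m, ‖(starRingEnd ℂ) (ε j) * y j‖ := norm_sum_le _ _
        _ = ∑ j ∈ Finset.range m, ‖y j‖ := by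
            refine Finset.sum_congr rfl fun j _ => ?_
            rw [norm_mul, RCLike.norm_conj, h1, one_mul]
        _ ≤ ‖y‖ := sum_le_hasSum _ (fun _ _ => norm_nonneg _) (hasSum_one y)
    -- conclusion
    by_cases hs0 : ‖s‖ = 0
    · rw [hs0, zero_pow two_ne_zero]
      positivity
    have hspos : 0 < ‖s‖ := lt_of_le_of_ne (norm_nonneg _) (Ne.symm hs0)
    have h6 : ‖s‖ ≤ C := by
      have h7 : ‖s‖ * ‖s‖ ≤ C * ‖s‖ := by
        rw [← sq]
        exact hpair.trans hyn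
      exact le_of_mul_le_mul_right h7 hspos
    gcongr
  have hlim : HasSum (fun j => ∑ i, ‖x i j‖ ^ 2) (∑ i : Fin n, (1:ℝ)) := by
    refine hasSum_sum fun i _ => ?_
    have h := hasSum_two (inc (x i))
    rw [hx.1 i, one_pow] at h
    exact h
  have h8 : ∑ i : Fin n, (1:ℝ) = n := by simp
  rw [← h8]
  exact le_of_tendsto' hlim.tendsto_sum_nat key

end Pool.Agent.Q202.SS
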