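import Pool.Agent.Q202.SS.Main

/-!
# A strictly singular non-compact composition operator: the functions
-/

set_option autoImplicit false

namespace Pool.Agent.Q202.SS

open Filter Topology Metric
open scoped ENNReal InnerProductSpace NNReal

lemma summable_ps {c : ℕ → ℂ} {C : ℝ} (hC : ∀ n, ‖c n‖ ≤ C) {z : ℂ} (hz : ‖z‖ < 1) :
    Summable fun n => c n * z ^ n := by
  refine Summable.of_norm_bounded (g := fun n => C * ‖z‖ ^ n)
    ((summable_geometric_of_lt_one (norm_nonneg z) hz).mul_left C) (fun n => ?_)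
  rw [norm_mul, norm_pow]
  gcongr
  exact hC n

lemma coeff_zero {c : ℕ → ℂ} {C : ℝ} (hC : ∀ n, ‖c n‖ ≤ C)
    (h : ∀ z : ℂ, ‖z‖ < 1 → ∑' n, c n * z ^ n = 0) (n : ℕ) : c n = 0 := by
  have h1 : HasFPowerSeriesOnBall (0 : ℂ → ℂ) (FormalMultilinearSeries.ofScalars ℂ c) 0
      ((1 / 2 : ℝ≥0) : ℝ≥0∞) := by
    refine ⟨?_, ?_, ?_⟩
    · refine FormalMultilinearSeries.le_radius_of_bound _ C fun n => ?_
      rw [FormalMultilinearSeries.ofScalars_norm]
      have h2 : ((1 / 2 : ℝ≥0) : ℝ) ^ n ≤ 1 := by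
        refine pow_le_one₀ (by positivity) ?_
        norm_num
      calc ‖c n‖ * ((1 / 2 : ℝ≥0) : ℝ) ^ n ≤ ‖c n‖ * 1 := by gcongr
        _ = ‖c n‖ := mul_one _
        _ ≤ C := hC n
    · have : (0 : ℝ≥0) < 1 / 2 := by norm_num
      exact_mod_cast this
    · intro y hy
      have hy' : ‖y‖ < 1 := by
        have h3 : edist y 0 < ((1 / 2 : ℝ≥0) : ℝ≥0∞) := hy
        rw [edist_eq_enorm_sub, sub_zero] at h3
        have h4 : ‖y‖₊ < (1 / 2 : ℝ≥0) := by exact_mod_cast h3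
        have h5 : ‖y‖ < ((1 / 2 : ℝ≥0) : ℝ) := by exact_mod_cast h4
        have h6 : ((1 / 2 : ℝ≥0) : ℝ) = 1 / 2 := by norm_num
        rw [h6] at h5
        linarith
      have h7 := (summable_ps hC hy').hasSum
      rw [h y hy'] at h7
      have e : (fun n => (FormalMultilinearSeries.ofScalars ℂ c n) fun _ => y) =
          fun n => c n * y ^ n := by
        funext n
        rw [FormalMultilinearSeries.ofScalars_apply_eq, smul_eq_mul]
      rw [e]
      exact h7
  have h2 := h1.hasFPowerSeriesAt.apply_eq_zero n 1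
  rw [FormalMultilinearSeries.ofScalars_apply_eq] at h2
  simpa using h2

lemma norm_cf_le (f : E) (n : ℕ) : ‖cf f n‖ ≤ ‖f‖ := by
  unfold cf
  split_ifs
  · rw [norm_mul, half_norm]
    have h : (1 / 2 : ℝ) ^ (n / 2) ≤ 1 := pow_le_one₀ (by norm_num) (by norm_num)
    calc (1 / 2 : ℝ) ^ (n / 2) * ‖f.2 (n / 2)‖ ≤ 1 * ‖f.2 (n / 2)‖ := by gcongr
      _ = ‖f.2 (n / 2)‖ := one_mul _
      _ ≤ ‖f.2‖ := apply_le_two _ _
      _ ≤ ‖f‖ := norm_snd_le f
  · exact (apply_le_one _ _).trans (norm_fst_le f)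

lemma cf_add (f g : E) (n : ℕ) : cf (f + g) n = cf f n + cf g n := by
  unfold cf
  split_ifs
  · show (1 / 2 : ℂ) ^ (n / 2) * (f.2 (n / 2) + g.2 (n / 2)) = _
    ring
  · rfl

lemma cf_smul (c : ℂ) (f : E) (n : ℕ) : cf (c • f) n = c * cf f n := by
  unfold cf
  split_ifs
  · show (1 / 2 : ℂ) ^ (n / 2) * (c * f.2 (n / 2)) = c * _
    ring
  · rfl

/-- the function on the disc with the coefficients `cf f` -/
noncomputable def val : E →ₗ[ℂ] (ball (0 : ℂ) 1 → ℂ) where
  toFun f z := ∑' n, cf f n * (z : ℂ) ^ n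
  map_add' f g := by
    funext z
    have hz : ‖(z : ℂ)‖ < 1 := mem_ball_zero_iff.1 z.2
    show ∑' n, cf (f + g) n * (z : ℂ) ^ n = ∑' n, cf f n * (z : ℂ) ^ n + ∑' n, cf g n * (z : ℂ) ^ n
    rw [← (summable_ps (norm_cf_le f) hz).tsum_add (summable_ps (norm_cf_le g) hz)]
    refine tsum_congr fun n => ?_
    rw [cf_add]
    ring
  map_smul' c f := by
    funext z
    show ∑' n, cf (c • f) n * (z : ℂ) ^ n = c * ∑' n, cf f n * (z : ℂ) ^ n
    rw [← tsum_mul_left]
    refine tsum_congr fun n => ?_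
    rw [cf_smul]
    ring

lemma val_apply (f : E) (z : ball (0 : ℂ) 1) : val f z = ∑' n, cf f n * (z : ℂ) ^ n := rfl

lemma val_injective : Function.Injective val := by
  rw [injective_iff_map_eq_zero]
  intro f hf
  have h1 : ∀ n, cf f n = 0 := by
    refine coeff_zero (norm_cf_le f) fun z hz => ?_
    exact congrFun hf ⟨z, by simpa using hz⟩
  have h2 : f.1 = 0 := by
    ext n
    have := h1 (2 * n + 1)
    rw [cf_odd] at this
    simpa using this
  have h3 : f.2 = 0 := by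
    ext n
    have := h1 (2 * n)
    rw [cf_even] at this
    have h4 : ((1 : ℂ) / 2) ^ n ≠ 0 := pow_ne_zero _ (by norm_num)
    rcases mul_eq_zero.1 this with h | h
    · exact absurd h h4
    · simpa using h
  exact Prod.ext h2 h3

lemma val_analytic (f : E) : ∃ F : ℂ → ℂ, DifferentiableOn ℂ F (ball 0 1) ∧
    ∀ z : ball (0 : ℂ) 1, val f z = F z := by
  refine ⟨fun z => ∑' n, cf f n * z ^ n, ?_, fun z => rfl⟩
  intro z hz
  have hz' : ‖z‖ < 1 := by simpa using hz
  obtain ⟨r, hr1, hr2⟩ := exists_between hz'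
  have hr0 : 0 < r := lt_of_le_of_lt (norm_nonneg _) hr1
  have h1 : DifferentiableOn ℂ (fun w => ∑' n, cf f n * w ^ n) (ball 0 r) := by
    refine Complex.differentiableOn_tsum_of_summable_norm (u := fun n => ‖f‖ * r ^ n)
      ((summable_geometric_of_lt_one hr0.le hr2).mul_left _) (fun n => ?_) isOpen_ball
      (fun n w hw => ?_)
    · exact (differentiable_id.pow n).const_mul _ |>.differentiableOn
    · have hw' : ‖w‖ < r := by simpa using hw
      rw [norm_mul, norm_pow]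
      gcongr
      exact norm_cf_le f n
  exact (h1.differentiableAt (isOpen_ball.mem_nhds (by simpa using hr1))).differentiableWithinAt

lemma val_continuous (z : ball (0 : ℂ) 1) : Continuous fun f => val f z := by
  have hz : ‖(z : ℂ)‖ < 1 := mem_ball_zero_iff.1 z.2
  let L : E →ₗ[ℂ] ℂ := (LinearMap.proj z).comp val
  have hL : ∀ f, ‖L f‖ ≤ (1 - ‖(z : ℂ)‖)⁻¹ * ‖f‖ := by
    intro f
    show ‖∑' n, cf f n * (z : ℂ) ^ n‖ ≤ _
    have h1 : HasSum (fun n => ‖f‖ * ‖(z : ℂ)‖ ^ n) (‖f‖ * (1 - ‖(z : ℂ)‖)⁻¹) :=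
      (hasSum_geometric_of_lt_one (norm_nonneg _) hz).mul_left _
    rw [mul_comm]
    refine tsum_of_norm_bounded h1 fun n => ?_
    rw [norm_mul, norm_pow]
    gcongr
    exact norm_cf_le f n
  exact (L.mkContinuous _ hL).continuous

/-- the symbol -/
noncomputable def phi (z : ℂ) : ℂ := z ^ 2 / 2

lemma phi_mem {z : ℂ} (hz : z ∈ ball (0 : ℂ) 1) : phi z ∈ ball (0 : ℂ) 1 := by
  have hz' : ‖z‖ < 1 := by simpa using hz
  have h1 : ‖phi z‖ < 1 := by
    unfold phi
    rw [norm_div, norm_pow]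
    have h2 : ‖z‖ ^ 2 ≤ 1 := pow_le_one₀ (norm_nonneg _) hz'.le
    have h3 : ‖(2 : ℂ)‖ = 2 := by norm_num
    rw [h3]
    linarith
  simpa using h1

lemma val_T (f : E) (z : ball (0 : ℂ) 1) :
    val (T f) z = val f ⟨phi z, phi_mem z.2⟩ := by
  have hz : ‖(z : ℂ)‖ < 1 := mem_ball_zero_iff.1 z.2
  rw [val_apply, val_apply]
  have hodd : ∀ m, cf (T f) (2 * m + 1) * (z : ℂ) ^ (2 * m + 1) = 0 := by
    intro m
    rw [cf_odd, T_apply]
    have h0 : ((0 : L1) : ℕ → ℂ) m = 0 := rfl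
    rw [h0, zero_mul]
  have heven : ∀ m, cf (T f) (2 * m) * (z : ℂ) ^ (2 * m) = cf f m * (phi z) ^ m := by
    intro m
    rw [cf_even, T_apply]
    have h0 : (Tf f : ℕ → ℂ) m = cf f m := rfl
    rw [h0]
    unfold phi
    rw [div_pow, div_pow, one_pow, ← pow_mul]
    ring
  have hs := summable_ps (norm_cf_le (T f)) hz
  have hphi : ‖phi z‖ < 1 := by simpa using phi_mem z.2
  have h1 : HasSum (fun m => cf (T f) (2 * m) * (z : ℂ) ^ (2 * m)) (∑' m, cf f m * (phi z) ^ m) := by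
    simp only [heven]
    exact (summable_ps (norm_cf_le f) hphi).hasSum
  have h2 : HasSum (fun m => cf (T f) (2 * m + 1) * (z : ℂ) ^ (2 * m + 1)) 0 := by
    simp only [hodd]
    exact hasSum_zero
  have h3 := HasSum.even_add_odd (f := fun n => cf (T f) n * (z : ℂ) ^ n) h1 h2
  rw [add_zero] at h3
  exact h3.tsum_eq

end Pool.Agent.Q202.SS
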