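import Pool.Agent.Q202.SS.Base

/-!
# A strictly singular non-compact composition operator
-/

set_option autoImplicit false

namespace Pool.Agent.Q202.SS

open Filter Topology Metric
open scoped ENNReal InnerProductSpace

/-- the space `ℓ¹ × ℓ²` -/
abbrev E : Type := L1 × L2

/-- the sequence with `a` on the odd and `(2^(-m) b m)` on the even numbers -/
noncomputable def cf (f : E) (n : ℕ) : ℂ :=
  if Even n then (1 / 2 : ℂ) ^ (n / 2) * f.2 (n / 2) else f.1 (n / 2)

lemma cf_even (f : E) (m : ℕ) : cf f (2 * m) = (1 / 2 : ℂ) ^ m * f.2 m := by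
  unfold cf
  rw [if_pos (even_two_mul m), Nat.mul_div_cancel_left m two_pos]

lemma cf_odd (f : E) (m : ℕ) : cf f (2 * m + 1) = f.1 m := by
  unfold cf
  have h : (2 * m + 1) / 2 = m := by omega
  rw [if_neg (by simp [parity_simps]), h]

lemma half_norm (m : ℕ) : ‖(1 / 2 : ℂ) ^ m‖ = (1 / 2 : ℝ) ^ m := by
  rw [norm_pow]
  norm_num

lemma summable_even (f : E) : Summable fun m => ‖cf f (2 * m)‖ ^ 2 := by
  refine Summable.of_nonneg_of_le (fun n => by positivity) (fun m => ?_) (hasSum_two f.2).summable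
  rw [cf_even, norm_mul, half_norm]
  have h : (1 / 2 : ℝ) ^ m ≤ 1 := pow_le_one₀ (by norm_num) (by norm_num)
  have h2 : (1 / 2 : ℝ) ^ m * ‖f.2 m‖ ≤ ‖f.2 m‖ := by
    calc _ ≤ 1 * ‖f.2 m‖ := by gcongr
      _ = _ := one_mul _
  gcongr

lemma hasSum_cf (f : E) :
    HasSum (fun n => ‖cf f n‖ ^ 2) ((∑' m, ‖cf f (2 * m)‖ ^ 2) + ‖inc f.1‖ ^ 2) := by
  refine HasSum.even_add_odd (summable_even f).hasSum ?_
  have h := hasSum_two (inc f.1)
  simpa [cf_odd] using h

/-- the operator, as a map -/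
noncomputable def Tf (f : E) : L2 := mk2 (cf f) (hasSum_cf f).summable

lemma norm_Tf_sq (f : E) : ‖Tf f‖ ^ 2 = (∑' m, ‖cf f (2 * m)‖ ^ 2) + ‖inc f.1‖ ^ 2 :=
  (hasSum_two (Tf f)).unique (hasSum_cf f)

/-- if `b m = 0` for `m < N`, the even part has norm at most `2 ^ (-N) ‖b‖` -/
lemma even_le (f : E) (N : ℕ) (h : ∀ m < N, f.2 m = 0) :
    ∑' m, ‖cf f (2 * m)‖ ^ 2 ≤ ((1 / 2 : ℝ) ^ N * ‖f.2‖) ^ 2 := by
  have h1 : HasSum (fun m => ((1 / 2 : ℝ) ^ N) ^ 2 * ‖f.2 m‖ ^ 2) (((1 / 2 : ℝ) ^ N) ^ 2 * ‖f.2‖ ^ 2) :=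
    (hasSum_two f.2).mul_left _
  rw [mul_pow]
  refine hasSum_le (fun m => ?_) (summable_even f).hasSum h1
  rw [cf_even, norm_mul, half_norm, mul_pow]
  by_cases hm : m < N
  · rw [h m hm]
    simp
  · have h2 : (1 / 2 : ℝ) ^ m ≤ (1 / 2 : ℝ) ^ N :=
      pow_le_pow_of_le_one (by norm_num) (by norm_num) (not_lt.1 hm)
    gcongr

/-- the operator into `ℓ²` -/
noncomputable def T0 : E →L[ℂ] L2 :=
  LinearMap.mkContinuous
    { toFun := fun f => Tf f
      map_add' := fun f g => by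
        ext n
        show cf (f + g) n = cf f n + cf g n
        unfold cf
        split_ifs
        · show (1 / 2 : ℂ) ^ (n / 2) * (f.2 (n / 2) + g.2 (n / 2)) = _
          ring
        · rfl
      map_smul' := fun c f => by
        ext n
        show cf (c • f) n = c * cf f n
        unfold cf
        split_ifs
        · show (1 / 2 : ℂ) ^ (n / 2) * (c * f.2 (n / 2)) = c * _
          ring
        · rfl } 2 (fun f => by
    have h1 := norm_Tf_sq f
    have h2 := even_le f 0 (fun m hm => absurd hm (Nat.not_lt_zero m))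
    rw [pow_zero, one_mul] at h2
    have h3 : ‖inc f.1‖ ≤ ‖f‖ := (norm_inc_le f.1).trans (norm_fst_le f)
    have h4 : ‖f.2‖ ≤ ‖f‖ := norm_snd_le f
    have h5 : ‖Tf f‖ ^ 2 ≤ (2 * ‖f‖) ^ 2 := by
      rw [h1]
      nlinarith [norm_nonneg (inc f.1), norm_nonneg f.2, norm_nonneg f]
    exact (sq_le_sq₀ (norm_nonneg _) (by positivity)).1 h5)

/-- the operator on `E` -/
noncomputable def T : E →L[ℂ] E := (ContinuousLinearMap.inr ℂ L1 L2) ∘L T0

lemma T_apply (f : E) : T f = ((0 : L1), Tf f) := rfl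

lemma norm_T (f : E) : ‖T f‖ = ‖Tf f‖ := by
  rw [T_apply, Prod.norm_def]
  simp

lemma T0_apply (f : E) : T0 f = Tf f := rfl

/-- `T` is not compact -/
lemma not_compact : ¬ IsCompactOperator (T : E → E) := by
  intro h
  have hK := h.isCompact_closure_image_closedBall 1
  let e : ℕ → E := fun j => (lp.single 1 j (1 : ℂ), 0)
  have he : ∀ j, ‖e j‖ ≤ 1 := by
    intro j
    show ‖((lp.single 1 j (1 : ℂ) : L1), (0 : L2))‖ ≤ 1
    rw [Prod.norm_def]
    simp
  have hmem : ∀ j, T (e j) ∈ closure ((T : E → E) '' closedBall 0 1) := fun j =>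
    subset_closure ⟨e j, by simpa using he j, rfl⟩
  obtain ⟨x, -, φ, hφ, hlim⟩ := hK.tendsto_subseq hmem
  have hc := hlim.cauchySeq
  rw [Metric.cauchySeq_iff'] at hc
  obtain ⟨N, hN⟩ := hc 1 one_pos
  have h1 := hN (N + 1) (by omega)
  have hne : φ (N + 1) ≠ φ N := (hφ (Nat.lt_succ_self N)).ne'
  have h2 : dist (T (e (φ (N + 1)))) (T (e (φ N))) = ‖Tf (e (φ (N + 1)) - e (φ N))‖ := by
    rw [dist_eq_norm, ← map_sub, norm_T]
  have h3 : (Tf (e (φ (N + 1)) - e (φ N)) : ℕ → ℂ) (2 * φ (N + 1) + 1) = 1 := by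
    show cf _ _ = _
    rw [cf_odd]
    show (lp.single 1 (φ (N + 1)) (1 : ℂ) : L1) (φ (N + 1)) -
      (lp.single 1 (φ N) (1 : ℂ) : L1) (φ (N + 1)) = 1
    rw [lp.single_apply_self, lp.single_apply_ne _ _ _ hne, sub_zero]
  have h4 := apply_le_two (Tf (e (φ (N + 1)) - e (φ N))) (2 * φ (N + 1) + 1)
  rw [h3, norm_one, ← h2] at h4
  exact absurd h1 (not_lt.2 h4)

lemma inc_add (a b : L1) : inc (a + b) = inc a + inc b := by
  ext n
  rw [lp.coeFn_add, Pi.add_apply, inc_apply, inc_apply, inc_apply, lp.coeFn_add, Pi.add_apply]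

lemma inc_smul (c : ℂ) (a : L1) : inc (c • a) = c • inc a := by
  ext n
  rw [lp.coeFn_smul, Pi.smul_apply, inc_apply, inc_apply, lp.coeFn_smul, Pi.smul_apply]

/-- the key inequality -/
lemma lower {f : E} {N : ℕ} {c : ℝ} (hN : (1 / 2 : ℝ) ^ N ≤ c / 2) (h0 : ∀ m < N, f.2 m = 0)
    (h : c * ‖f‖ ≤ ‖T f‖) : (c / 2) * ‖f‖ ≤ ‖inc f.1‖ := by
  have h1 := norm_Tf_sq f
  have h2 := even_le f N h0
  have h3 : ‖Tf f‖ ≤ ‖inc f.1‖ + (1 / 2 : ℝ) ^ N * ‖f.2‖ := by
    have h4 : ‖Tf f‖ ^ 2 ≤ (‖inc f.1‖ + (1 / 2 : ℝ) ^ N * ‖f.2‖) ^ 2 := by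
      rw [h1]
      have h5 : 0 ≤ ‖inc f.1‖ * ((1 / 2 : ℝ) ^ N * ‖f.2‖) := by positivity
      nlinarith
    exact (sq_le_sq₀ (norm_nonneg _) (by positivity)).1 h4
  have h6 : (1 / 2 : ℝ) ^ N * ‖f.2‖ ≤ (c / 2) * ‖f‖ := by
    have : 0 ≤ c / 2 := le_trans (by positivity) hN
    gcongr
    exact norm_snd_le f
  rw [norm_T] at h
  linarith

/-- `T` is strictly singular -/
lemma strictly_singular (M : Submodule ℂ E) (hM : ¬ FiniteDimensional ℂ M) (c : ℝ) (hc : 0 < c) :
    ¬ ∀ f ∈ M, c * ‖f‖ ≤ ‖T f‖ := by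
  intro h
  obtain ⟨N, hN⟩ : ∃ N : ℕ, (1 / 2 : ℝ) ^ N ≤ c / 2 := by
    obtain ⟨N, hN⟩ := exists_pow_lt_of_lt_one (show (0:ℝ) < c / 2 by positivity)
      (show (1 / 2 : ℝ) < 1 by norm_num)
    exact ⟨N, hN.le⟩
  -- the first coefficients
  let L : M →ₗ[ℂ] (Fin N → ℂ) :=
    { toFun := fun f m => (f : E).2 m
      map_add' := fun f g => rfl
      map_smul' := fun c f => rfl }
  let Φ : LinearMap.ker L →ₗ[ℂ] L2 :=
    { toFun := fun f => inc ((f : M) : E).1
      map_add' := fun f g => inc_add _ _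
      map_smul' := fun c f => inc_smul _ _ }
  have hlow : ∀ f : LinearMap.ker L, (c / 2) * ‖((f : M) : E)‖ ≤ ‖inc ((f : M) : E).1‖ := by
    intro f
    refine lower hN (fun m hm => ?_) (h _ (f : M).2)
    have h1 : L (f : M) = 0 := f.2
    exact congrFun h1 ⟨m, hm⟩
  have hinj : Function.Injective Φ := by
    rw [injective_iff_map_eq_zero]
    intro f hf
    have h1 := hlow f
    have h2 : inc ((f : M) : E).1 = 0 := hf
    rw [h2, norm_zero] at h1
    have h3 : ‖((f : M) : E)‖ ≤ 0 := by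
      by_contra hcon
      push Not at hcon
      have : 0 < c / 2 * ‖((f : M) : E)‖ := by positivity
      linarith
    have h4 : ((f : M) : E) = 0 := norm_le_zero_iff.1 h3
    exact Subtype.ext (Subtype.ext h4)
  have hker : ¬ FiniteDimensional ℂ (LinearMap.ker L) := by
    intro hfd
    apply hM
    have h1 : (LinearMap.ker L).FG := (Submodule.fg_top _).1 hfd.fg_top
    have h2 : (LinearMap.range L).FG := IsNoetherian.noetherian _
    have h3 : (⊤ : Submodule ℂ M).FG := by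
      refine Submodule.fg_of_fg_map_of_fg_inf_ker L ?_ ?_
      · rw [← LinearMap.range_eq_map]
        exact h2
      · rw [top_inf_eq]
        exact h1
    exact ⟨h3⟩
  obtain ⟨n, hn⟩ := exists_nat_gt ((2 / c) ^ 2)
  have hR : ¬ FiniteDimensional ℂ (LinearMap.range Φ) := by
    intro hfd
    exact hker (Module.Finite.equiv (LinearEquiv.ofInjective Φ hinj).symm)
  obtain ⟨v, hv⟩ : ∃ v : Fin n → LinearMap.range Φ, LinearIndependent ℂ v := by
    apply exists_linearIndependent_of_le_rank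
    by_contra hcon
    push Not at hcon
    exact hR (Module.rank_lt_aleph0_iff.1 (hcon.trans (Cardinal.natCast_lt_aleph0)))
  have hv' : LinearIndependent ℂ (fun i => (v i : L2)) := hv.map' (Submodule.subtype _) (by simp)
  set W : Submodule ℂ L2 := Submodule.span ℂ (Set.range fun i => (v i : L2)) with hW
  haveI : FiniteDimensional ℂ W := FiniteDimensional.span_of_finite ℂ (Set.finite_range _)
  have hWR : W ≤ LinearMap.range Φ := by
    rw [hW, Submodule.span_le]
    rintro _ ⟨i, rfl⟩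
    exact (v i).2
  have hfr : Module.finrank ℂ W = n := by
    rw [hW, finrank_span_eq_card hv']
    simp
  let b := (stdOrthonormalBasis ℂ W).reindex (finCongr hfr)
  have hb : ∀ i, ∃ f, Φ f = (b i : L2) := fun i => hWR (b i).2
  choose f hf using hb
  have hort : Orthonormal ℂ (fun i => inc (((f i : M) : E).1)) := by
    have h1 : Orthonormal ℂ (fun i => (b i : L2)) :=
      b.orthonormal.comp_linearIsometry W.subtypeₗᵢ
    have h2 : (fun i => inc (((f i : M) : E).1)) = fun i => (b i : L2) := funext fun i => hf i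
    rw [h2]
    exact h1
  have hdim := dim_le (fun i => ((f i : M) : E).1) hort (C := 2 / c) (fun d => ?_)
  · linarith
  · have h1 := hlow (∑ i, d i • f i)
    have h2 : (((∑ i, d i • f i : LinearMap.ker L) : M) : E).1 = ∑ i, d i • ((f i : M) : E).1 := by
      simp [Submodule.coe_sum, Prod.fst_sum]
    have h3 : inc (((∑ i, d i • f i : LinearMap.ker L) : M) : E).1 =
        ∑ i, d i • inc ((f i : M) : E).1 := by
      have h4 : Φ (∑ i, d i • f i) = ∑ i, d i • Φ (f i) := by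
        rw [map_sum]
        simp
      exact h4
    rw [h3] at h1
    have h5 : ‖∑ i, d i • ((f i : M) : E).1‖ ≤ ‖(((∑ i, d i • f i : LinearMap.ker L) : M) : E)‖ := by
      rw [← h2]
      exact norm_fst_le _
    calc ‖∑ i, d i • ((f i : M) : E).1‖ ≤ _ := h5
      _ = 2 / c * (c / 2 * ‖(((∑ i, d i • f i : LinearMap.ker L) : M) : E)‖) := by
          field_simp
      _ ≤ 2 / c * ‖∑ i, d i • inc ((f i : M) : E).1‖ := by gcongr

end Pool.Agent.Q202.SS
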